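import Pool.Agent.H6.MS.Defs

/-!
# Module BLR of the board ms_modules: robust linearity (Fourier analysis on `ZMod N`)
-/

set_option autoImplicit false

open Finset ZMod
open scoped ComplexConjugate

namespace Pool.Agent.H87.MS

open Pool.Agent.H6.MS

/-- `exp (2 pi i t)` -/
noncomputable def ee (t : ℝ) : ℂ := Complex.exp ((2 * Real.pi * t : ℝ) * Complex.I)

lemma ee_add (s t : ℝ) : ee (s + t) = ee s * ee t := by
  unfold ee
  rw [← Complex.exp_add]
  congr 1
  push_cast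
  ring

lemma ee_norm (t : ℝ) : ‖ee t‖ = 1 := by
  unfold ee
  exact Complex.norm_exp_ofReal_mul_I _

lemma ee_conj (t : ℝ) : conj (ee t) = ee (-t) := by
  unfold ee
  rw [← Complex.exp_conj]
  congr 1
  simp only [map_mul, Complex.conj_ofReal, Complex.conj_I]
  push_cast
  ring

lemma ee_re (t : ℝ) : (ee t).re = 1 - dd t / 2 := by
  unfold ee dd
  rw [Complex.exp_ofReal_mul_I_re]
  ring

lemma ee_int (k : ℤ) : ee k = 1 := by
  unfold ee
  rw [Complex.exp_eq_one_iff]
  exact ⟨k, by push_cast; ring⟩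

lemma dd_eq (t : ℝ) : dd t = ‖ee t - 1‖ ^ 2 := by
  have h : ‖ee t - 1‖ ^ 2 = (ee t - 1).re ^ 2 + (ee t - 1).im ^ 2 := by
    rw [← Complex.normSq_eq_norm_sq, Complex.normSq_apply]
    ring
  rw [h]
  unfold ee dd
  simp only [Complex.sub_re, Complex.sub_im, Complex.one_re, Complex.one_im,
    Complex.exp_ofReal_mul_I_re, Complex.exp_ofReal_mul_I_im]
  nlinarith [Real.sin_sq_add_cos_sq (2 * Real.pi * t)]

lemma dd_nonneg (t : ℝ) : 0 ≤ dd t := by
  rw [dd_eq]
  positivity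

lemma dd_neg (t : ℝ) : dd (-t) = dd t := by
  unfold dd
  rw [mul_neg, Real.cos_neg]

lemma dd_add_int (t : ℝ) (k : ℤ) : dd (t + k) = dd t := by
  rw [dd_eq, dd_eq, ee_add, ee_int, mul_one]

lemma dd_add_le (s t : ℝ) : dd (s + t) ≤ 2 * dd s + 2 * dd t := by
  rw [dd_eq, dd_eq, dd_eq, ee_add]
  have h : ‖ee s * ee t - 1‖ ≤ ‖ee s - 1‖ + ‖ee t - 1‖ := by
    have : ee s * ee t - 1 = (ee s - 1) + ee s * (ee t - 1) := by ring
    rw [this]
    refine (norm_add_le _ _).trans ?_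
    rw [norm_mul, ee_norm, one_mul]
  have h0 := norm_nonneg (ee s * ee t - 1)
  have h1 : ‖ee s * ee t - 1‖ ^ 2 ≤ (‖ee s - 1‖ + ‖ee t - 1‖) ^ 2 := by gcongr
  nlinarith [sq_nonneg (‖ee s - 1‖ - ‖ee t - 1‖)]

variable {N : ℕ} [NeZero N]

lemma chi_eq (k x : ZMod N) :
    (stdAddChar (k * x) : ℂ) = ee ((k.val : ℝ) * (x.val : ℝ) / N) := by
  have h : k * x = (((k.val * x.val : ℕ) : ℤ) : ZMod N) := by
    push_cast
    rw [ZMod.natCast_zmod_val, ZMod.natCast_zmod_val]
  rw [h, ZMod.stdAddChar_coe]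
  unfold ee
  congr 1
  push_cast
  ring

/-- Fourier transform (not normalised) -/
noncomputable def T (F : ZMod N → ℂ) (k : ZMod N) : ℂ := ∑ x, F x * stdAddChar (-(k * x))

lemma trip (F G H : ZMod N → ℂ) :
    ∑ k, T F k * T G k * conj (T H k) = N * ∑ x, ∑ z, F x * G z * conj (H (x + z)) := by
  have h1 : ∀ k, T F k * T G k * conj (T H k) =
      ∑ x, ∑ z, ∑ s, F x * G z * conj (H s) * (stdAddChar (k * (s - x - z)) : ℂ) := by
    intro k
    unfold T
    rw [map_sum, Finset.sum_mul_sum, Finset.sum_mul]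
    refine Finset.sum_congr rfl fun x _ => ?_
    rw [Finset.sum_mul]
    refine Finset.sum_congr rfl fun z _ => ?_
    rw [Finset.mul_sum]
    refine Finset.sum_congr rfl fun s _ => ?_
    rw [map_mul, ← AddChar.map_neg_eq_conj, neg_neg]
    have : k * (s - x - z) = -(k * x) + -(k * z) + k * s := by ring
    rw [this, AddChar.map_add_eq_mul, AddChar.map_add_eq_mul]
    ring
  simp only [h1]
  rw [Finset.sum_comm, Finset.mul_sum]
  refine Finset.sum_congr rfl fun x _ => ?_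
  rw [Finset.sum_comm, Finset.mul_sum]
  refine Finset.sum_congr rfl fun z _ => ?_
  rw [Finset.sum_comm]
  have h2 : ∀ s : ZMod N, ∑ k : ZMod N, F x * G z * conj (H s) *
      (stdAddChar (k * (s - x - z)) : ℂ) = if s = x + z then N * (F x * G z * conj (H s)) else 0 := by
    intro s
    rw [← Finset.mul_sum, AddChar.sum_mulShift _ (isPrimitive_stdAddChar N), ZMod.card]
    by_cases hs : s = x + z
    · rw [if_pos hs, if_pos (by rw [hs]; ring)]
      ring
    · rw [if_neg hs, if_neg (fun h => hs (by linear_combination h))]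
      simp
  simp only [h2]
  rw [Finset.sum_ite_eq' Finset.univ (x + z)]
  simp

lemma parseval (G : ZMod N → ℂ) (hG : ∀ x, ‖G x‖ = 1) : ∑ k, ‖T G k‖ ^ 2 = (N : ℝ) ^ 2 := by
  have h := trip (Pi.single 0 1) G G
  have h1 : ∀ k : ZMod N, T (Pi.single 0 1) k = 1 := by
    intro k
    unfold T
    rw [Finset.sum_eq_single 0]
    · simp
    · intro x _ hx
      rw [Pi.single_eq_of_ne hx, zero_mul]
    · intro h
      exact absurd (Finset.mem_univ _) h
  have h2 : ∑ x : ZMod N, ∑ z, (Pi.single 0 1 : ZMod N → ℂ) x * G z * conj (G (x + z)) = N := by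
    rw [Finset.sum_eq_single 0]
    · have : ∀ z : ZMod N, (Pi.single 0 1 : ZMod N → ℂ) 0 * G z * conj (G (0 + z)) = 1 := by
        intro z
        rw [Pi.single_eq_same, one_mul, zero_add, Complex.mul_conj, Complex.normSq_eq_norm_sq, hG]
        simp
      simp only [this]
      simp
    · intro x _ hx
      refine Finset.sum_eq_zero fun z _ => ?_
      rw [Pi.single_eq_of_ne hx]
      ring
    · intro h
      exact absurd (Finset.mem_univ _) h
  rw [h2] at h
  have h3 : ∀ k : ZMod N, T (Pi.single 0 1) k * T G k * conj (T G k) = ((‖T G k‖ ^ 2 : ℝ) : ℂ) := by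
    intro k
    rw [h1, one_mul, Complex.mul_conj, Complex.normSq_eq_norm_sq]
  simp only [h3] at h
  have h4 : ((∑ k : ZMod N, ‖T G k‖ ^ 2 : ℝ) : ℂ) = (((N : ℝ) ^ 2 : ℝ) : ℂ) := by
    push_cast at h ⊢
    rw [h]
    ring
  exact_mod_cast h4

/-- the first half -/
lemma first (u v w : ZMod N → ℝ) (δ : ℝ)
    (h : ∑ x : ZMod N, ∑ z : ZMod N, dd (u x + v z - w (x + z)) ≤ δ * (N : ℝ) ^ 2) :
    ∃ (k : ℤ) (θ : ℝ), ∑ x : ZMod N, dd (u x - (k : ℝ) * (x.val : ℝ) / N - θ) ≤ δ * N := by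
  have hN : (0 : ℝ) < N := by exact_mod_cast Nat.pos_of_ne_zero (NeZero.ne N)
  set F : ZMod N → ℂ := fun x => ee (u x) with hF
  set G : ZMod N → ℂ := fun x => ee (v x) with hG
  set H : ZMod N → ℂ := fun x => ee (w x) with hH
  obtain ⟨k, -, hk⟩ := Finset.exists_max_image (Finset.univ : Finset (ZMod N))
    (fun k => ‖T F k‖) ⟨0, Finset.mem_univ _⟩
  -- lower bound
  have h1 : (N : ℝ) ^ 2 * (1 - δ / 2) ≤ ‖∑ x, ∑ z, F x * G z * conj (H (x + z))‖ := by
    have h2 : (∑ x, ∑ z, F x * G z * conj (H (x + z))).re =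
        (N : ℝ) ^ 2 - (∑ x : ZMod N, ∑ z : ZMod N, dd (u x + v z - w (x + z))) / 2 := by
      have h3 : ∀ x z : ZMod N, (F x * G z * conj (H (x + z))).re =
          1 - dd (u x + v z - w (x + z)) / 2 := by
        intro x z
        rw [hF, hG, hH]
        simp only
        rw [ee_conj, ← ee_add, ← ee_add, ee_re, ← sub_eq_add_neg]
      rw [Complex.re_sum]
      simp only [Complex.re_sum, h3]
      simp only [Finset.sum_sub_distrib, Finset.sum_const, Finset.card_univ, ZMod.card,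
        nsmul_eq_mul, mul_one, ← Finset.sum_div]
      ring
    calc (N : ℝ) ^ 2 * (1 - δ / 2) ≤ (∑ x, ∑ z, F x * G z * conj (H (x + z))).re := by
          rw [h2]; linarith
      _ ≤ _ := Complex.re_le_norm _
  -- upper bound
  have h2 : (N : ℝ) * ‖∑ x, ∑ z, F x * G z * conj (H (x + z))‖ ≤ ‖T F k‖ * (N : ℝ) ^ 2 := by
    have h3 := congrArg norm (trip F G H)
    rw [norm_mul, Complex.norm_natCast] at h3
    rw [← h3]
    calc ‖∑ k, T F k * T G k * conj (T H k)‖ ≤ ∑ l, ‖T F l * T G l * conj (T H l)‖ :=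
          norm_sum_le _ _
      _ ≤ ∑ l, ‖T F k‖ * ((‖T G l‖ ^ 2 + ‖T H l‖ ^ 2) / 2) := by
          refine Finset.sum_le_sum fun l _ => ?_
          rw [norm_mul, norm_mul, RCLike.norm_conj, mul_assoc]
          have h4 := hk l (Finset.mem_univ _)
          have h5 : ‖T G l‖ * ‖T H l‖ ≤ (‖T G l‖ ^ 2 + ‖T H l‖ ^ 2) / 2 := by
            nlinarith [sq_nonneg (‖T G l‖ - ‖T H l‖)]
          exact mul_le_mul h4 h5 (by positivity) (norm_nonneg _)
      _ = ‖T F k‖ * (N : ℝ) ^ 2 := by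
          rw [← Finset.mul_sum, ← Finset.sum_div, Finset.sum_add_distrib,
            parseval G fun x => ee_norm _, parseval H fun x => ee_norm _]
          ring
  have h3 : (N : ℝ) * (1 - δ / 2) ≤ ‖T F k‖ := by
    have h4 : (N : ℝ) * ((N : ℝ) ^ 2 * (1 - δ / 2)) ≤ ‖T F k‖ * (N : ℝ) ^ 2 :=
      (mul_le_mul_of_nonneg_left h1 hN.le).trans h2
    have h5 : (0 : ℝ) < (N : ℝ) ^ 2 := by positivity
    refine le_of_mul_le_mul_right ?_ h5
    linarith
  refine ⟨(k.val : ℤ), (T F k).arg / (2 * Real.pi), ?_⟩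
  set θ := (T F k).arg / (2 * Real.pi) with hθ
  have h4 : (ee (-θ) * T F k).re = ‖T F k‖ := by
    have h5 : ee (-θ) * T F k = (‖T F k‖ : ℂ) := by
      conv_lhs => rw [← Complex.norm_mul_exp_arg_mul_I (T F k)]
      unfold ee
      have : ((2 * Real.pi * -θ : ℝ) : ℂ) * Complex.I = -((T F k).arg * Complex.I) := by
        rw [hθ]
        have hpi : (Real.pi : ℂ) ≠ 0 := by exact_mod_cast Real.pi_ne_zero
        push_cast
        field_simp
      rw [this, Complex.exp_neg]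
      have hne := Complex.exp_ne_zero ((T F k).arg * Complex.I)
      field_simp
    rw [h5, Complex.ofReal_re]
  have h5 : ee (-θ) * T F k =
      ∑ x : ZMod N, ee (u x - ((k.val : ℤ) : ℝ) * (x.val : ℝ) / N - θ) := by
    unfold T
    rw [Finset.mul_sum]
    refine Finset.sum_congr rfl fun x _ => ?_
    rw [AddChar.map_neg_eq_conj, chi_eq, ee_conj, hF]
    simp only
    rw [← ee_add, ← ee_add]
    congr 1
    push_cast
    ring
  rw [h5, Complex.re_sum] at h4
  simp only [ee_re] at h4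
  rw [Finset.sum_sub_distrib, ← Finset.sum_div] at h4
  simp only [Finset.sum_const, Finset.card_univ, ZMod.card, nsmul_eq_mul, mul_one] at h4
  linarith

theorem blr (u v w : ZMod N → ℝ) (δ : ℝ)
    (h : ∑ x : ZMod N, ∑ z : ZMod N, dd (u x + v z - w (x + z)) ≤ δ * (N : ℝ) ^ 2) :
    ∃ (k : ℤ) (θ₁ θ₂ : ℝ),
      ∑ x : ZMod N, dd (u x - (k : ℝ) * (x.val : ℝ) / N - θ₁) ≤ δ * N ∧
      ∑ x : ZMod N, dd (v x - (k : ℝ) * (x.val : ℝ) / N - θ₂) ≤ 4 * δ * N := by
  have hN : (0 : ℝ) < N := by exact_mod_cast Nat.pos_of_ne_zero (NeZero.ne N)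
  obtain ⟨k, θ₁, h1⟩ := first u v w δ h
  set F : ZMod N → ℝ := fun s => w s - (k : ℝ) * (s.val : ℝ) / N - θ₁ with hF
  set G : ZMod N → ℝ := fun z => v z - (k : ℝ) * (z.val : ℝ) / N with hG
  have h2 : ∀ x z : ZMod N, dd (F (x + z) - G z) ≤ 2 * dd (u x + v z - w (x + z)) +
      2 * dd (u x - (k : ℝ) * (x.val : ℝ) / N - θ₁) := by
    intro x z
    obtain ⟨m, hm⟩ : ∃ m : ℤ, (x.val : ℝ) + (z.val : ℝ) - ((x + z).val : ℝ) = N * m := by
      have h3 : (((x.val : ℤ) + (z.val : ℤ) - ((x + z).val : ℤ) : ℤ) : ZMod N) = 0 := by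
        push_cast
        rw [ZMod.natCast_zmod_val, ZMod.natCast_zmod_val, ZMod.natCast_zmod_val]
        ring
      obtain ⟨m, hm⟩ := (ZMod.intCast_zmod_eq_zero_iff_dvd _ _).1 h3
      exact ⟨m, by exact_mod_cast hm⟩
    have h4 : F (x + z) - G z = (-(u x + v z - w (x + z)) +
        (u x - (k : ℝ) * (x.val : ℝ) / N - θ₁)) + ((k * m : ℤ) : ℝ) := by
      have h5 : ((x + z).val : ℝ) = (x.val : ℝ) + (z.val : ℝ) - N * m := by linarith
      rw [hF, hG]
      simp only
      rw [h5]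
      push_cast
      field_simp
      ring
    rw [h4, dd_add_int]
    refine (dd_add_le _ _).trans ?_
    rw [dd_neg]
  have h3 : ∑ s : ZMod N, ∑ z : ZMod N, dd (F s - G z) ≤ ∑ s : ZMod N, 4 * δ * N := by
    have h4 : ∑ s : ZMod N, ∑ z : ZMod N, dd (F s - G z) =
        ∑ x : ZMod N, ∑ z : ZMod N, dd (F (x + z) - G z) := by
      rw [Finset.sum_comm]
      conv_rhs => rw [Finset.sum_comm]
      refine Finset.sum_congr rfl fun z _ => ?_
      exact (Fintype.sum_equiv (Equiv.addRight z) _ _ fun x => rfl).symm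
    rw [h4]
    calc ∑ x : ZMod N, ∑ z : ZMod N, dd (F (x + z) - G z)
        ≤ ∑ x : ZMod N, ∑ z : ZMod N, (2 * dd (u x + v z - w (x + z)) +
          2 * dd (u x - (k : ℝ) * (x.val : ℝ) / N - θ₁)) :=
          Finset.sum_le_sum fun x _ => Finset.sum_le_sum fun z _ => h2 x z
      _ = 2 * ∑ x : ZMod N, ∑ z : ZMod N, dd (u x + v z - w (x + z)) +
          2 * (N * ∑ x : ZMod N, dd (u x - (k : ℝ) * (x.val : ℝ) / N - θ₁)) := by
          simp only [Finset.sum_add_distrib, ← Finset.mul_sum, Finset.sum_const,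
            Finset.card_univ, ZMod.card, nsmul_eq_mul]
      _ ≤ 2 * (δ * (N : ℝ) ^ 2) + 2 * (N * (δ * N)) := by gcongr
      _ = ∑ s : ZMod N, 4 * δ * N := by
          simp only [Finset.sum_const, Finset.card_univ, ZMod.card, nsmul_eq_mul]
          ring
  obtain ⟨s, -, hs⟩ := Finset.exists_le_of_sum_le (Finset.univ_nonempty (α := ZMod N)) h3
  refine ⟨k, θ₁, F s, h1, ?_⟩
  refine le_trans (le_of_eq ?_) hs
  refine Finset.sum_congr rfl fun z _ => ?_
  rw [← dd_neg]
  congr 1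
  rw [hG]
  simp only
  ring

end Pool.Agent.H87.MS
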